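import Pool.Agent.N463.HW.Stm

/-!
HW/VG: the conjugate of the short-time Fourier transform with window `h_1`.
-/

set_option autoImplicit false

open MeasureTheory

namespace Pool.Agent.N434.HW

open Pool.Agent.N463.HW

theorem t_VG (h : S_ENT) : S_VG := by
  intro c₁ hc g hg w
  obtain ⟨hi0, hi1, hd⟩ := h g hg
  obtain ⟨z, hz⟩ : ∃ z, z = zz w := ⟨_, rfl⟩
  rw [← hz]
  obtain ⟨E, hE⟩ : ∃ E : ℝ → ℂ, E = fun t => (starRingEnd ℂ) (g t) *
    Complex.exp (-Real.pi * t ^ 2 + 2 * Real.pi * t * z) := ⟨_, rfl⟩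
  have hI0 : Integrable E := by rw [hE]; exact hi0 z
  have hI1 : Integrable (fun t : ℝ => (t : ℂ) * E t) := by rw [hE]; exact hi1 z
  have h1 : (starRingEnd ℂ) (stft (herm 1) g w) = (-c₁ * Complex.exp (-Real.pi * w.1 ^ 2)) *
      ((∫ t : ℝ, (t : ℂ) * E t) - (w.1 : ℂ) * ∫ t : ℝ, E t) := by
    unfold stft
    rw [← integral_conj, ← integral_const_mul (w.1 : ℂ), ← integral_sub hI1 (hI0.const_mul _),
      ← integral_const_mul]
    refine integral_congr_ae (Filter.Eventually.of_forall fun t => ?_)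
    have e : Complex.exp (2 * Real.pi * Complex.I * w.2 * t) *
        Complex.exp (-Real.pi * ((t - w.1 : ℝ) : ℂ) ^ 2) =
        Complex.exp (-Real.pi * w.1 ^ 2) *
          Complex.exp (-Real.pi * t ^ 2 + 2 * Real.pi * t * z) := by
      rw [← Complex.exp_add, ← Complex.exp_add]
      congr 1
      rw [hz]
      unfold zz
      push_cast
      ring
    simp only [tfs, map_mul, Complex.conj_conj, hE]
    rw [hc (t - w.1)]
    push_cast at e ⊢
    linear_combination (-(starRingEnd ℂ) (g t) * c₁ * ((t : ℂ) - w.1)) * e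
  have h2 : bst g z = Complex.exp (-Real.pi * z ^ 2 / 2) * ∫ t : ℝ, E t := by
    unfold bst
    rw [hE]
  have h3 : deriv (bst g) z = -Real.pi * z * bst g z + Complex.exp (-Real.pi * z ^ 2 / 2) *
      (2 * Real.pi * ∫ t : ℝ, (t : ℂ) * E t) := by
    have e : ∫ t : ℝ, (2 * Real.pi * t : ℂ) * ((starRingEnd ℂ) (g t) *
        Complex.exp (-Real.pi * t ^ 2 + 2 * Real.pi * t * z)) =
        2 * Real.pi * ∫ t : ℝ, (t : ℂ) * E t := by
      rw [← integral_const_mul]
      refine integral_congr_ae (Filter.Eventually.of_forall fun t => ?_)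
      simp only [hE]
      ring
    rw [(hd z).deriv, e]
  have h4 : (starRingEnd ℂ) z = 2 * w.1 - z := by
    rw [hz]
    unfold zz
    simp only [map_add, map_mul, Complex.conj_ofReal, Complex.conj_I]
    ring
  have h5 : Complex.exp (-Real.pi * w.1 ^ 2 + Real.pi * z ^ 2 / 2) =
      Complex.exp (-Real.pi * w.1 ^ 2) * Complex.exp (Real.pi * z ^ 2 / 2) := Complex.exp_add _ _
  have h6 : Complex.exp (Real.pi * z ^ 2 / 2) * Complex.exp (-Real.pi * z ^ 2 / 2) = 1 := by
    rw [← Complex.exp_add]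
    rw [show (Real.pi * z ^ 2 / 2 + -Real.pi * z ^ 2 / 2 : ℂ) = 0 by ring, Complex.exp_zero]
  have hpi : (Real.pi : ℂ) ≠ 0 := by exact_mod_cast Real.pi_ne_zero
  rw [h1, h3, h4, h5, h2]
  generalize Complex.exp (-Real.pi * w.1 ^ 2) = A at *
  generalize Complex.exp (Real.pi * z ^ 2 / 2) = B at *
  generalize Complex.exp (-Real.pi * z ^ 2 / 2) = D at *
  generalize (∫ t : ℝ, (t : ℂ) * E t) = I1 at *
  generalize (∫ t : ℝ, E t) = I0 at *
  field_simp
  linear_combination (2 * c₁ * A * (I1 - w.1 * I0)) * h6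

end Pool.Agent.N434.HW
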